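import Mathlib
import Pool.Agent.H61.BPA.Stmt

/-!
# Row NUC4 of the board `bpa`: the nucleus of an oval section
-/

set_option autoImplicit false

namespace Pool.BPA

open Finset

/-- The linear form `w ↦ c ⬝ᵥ w`. -/
def dotL {F : Type} [Field F] (c : Fin 4 → F) : (Fin 4 → F) →ₗ[F] F where
  toFun w := c ⬝ᵥ w
  map_add' x y := dotProduct_add c x y
  map_smul' a x := dotProduct_smul a c x

@[simp] theorem dotL_apply {F : Type} [Field F] (c w : Fin 4 → F) : dotL c w = c ⬝ᵥ w := rfl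

theorem dotL_surj {F : Type} [Field F] {c : Fin 4 → F} (hc : c ≠ 0) :
    Function.Surjective (dotL c) := by
  obtain ⟨i, hi⟩ := Function.ne_iff.1 hc
  intro y
  refine ⟨Pi.single i ((c i)⁻¹ * y), ?_⟩
  have hi' : c i ≠ 0 := hi
  rw [dotL_apply, dotProduct_single, mul_inv_cancel_left₀ hi']

theorem card_ker {F : Type} [Field F] [Fintype F] {c : Fin 4 → F} (hc : c ≠ 0)
    [Fintype (LinearMap.ker (dotL c))] :
    Fintype.card (LinearMap.ker (dotL c)) = Fintype.card F ^ 3 := by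
  have h1 := LinearMap.finrank_range_add_finrank_ker (dotL c)
  rw [LinearMap.range_eq_top.2 (dotL_surj hc), finrank_top, Module.finrank_self,
    Module.finrank_fin_fun] at h1
  rw [Module.card_eq_pow_finrank (K := F), show Module.finrank F (LinearMap.ker (dotL c)) = 3 by
    omega]

/-- NUC4. -/
theorem t_nuc4 (h : NucStmt) : Nuc4Stmt := by
  classical
  intro F _ _ _ ι _ v hv c hc hA
  have hcap : Cap F (fun j : {j : ι // c ⬝ᵥ v j = 0} =>
      (⟨v j.1, j.2⟩ : LinearMap.ker (dotL c))) := by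
    refine ⟨fun i hi => hv.one i.1 (congrArg Subtype.val hi), fun i j hij a b e => ?_,
      fun i j k hij hik hjk a b d e => ?_⟩
    · exact hv.two i.1 j.1 (fun e' => hij (Subtype.ext e')) a b (congrArg Subtype.val e)
    · exact hv.three i.1 j.1 k.1 (fun e' => hij (Subtype.ext e')) (fun e' => hik (Subtype.ext e'))
        (fun e' => hjk (Subtype.ext e')) a b d (congrArg Subtype.val e)
  have : Fintype (LinearMap.ker (dotL c)) := Fintype.ofFinite _
  obtain ⟨N, hN0, hN1, hN2⟩ := h F {j : ι // c ⬝ᵥ v j = 0} (LinearMap.ker (dotL c)) _ hcap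
    (by
      rw [Fintype.card_subtype, ← hA]
      unfold A
      congr) (card_ker hc)
  have hcN : c ⬝ᵥ N.1 = 0 := N.2
  refine ⟨N.1, fun e => hN0 (Subtype.ext e), hcN, fun i hi j a b e => ?_, fun w hw hwN => ?_⟩
  · have hi' : c ⬝ᵥ v i = 0 := (mem_filter.1 hi).2
    by_cases hj : c ⬝ᵥ v j = 0
    · exact hN1 ⟨i, hi'⟩ ⟨j, hj⟩ a b (Subtype.ext e)
    · have h1 : b = 0 := by
        rw [e, dotProduct_add, dotProduct_smul, dotProduct_smul, hi', smul_zero, zero_add,
          smul_eq_mul] at hcN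
        exact (mul_eq_zero.1 hcN).resolve_right hj
      refine hN1 ⟨i, hi'⟩ ⟨i, hi'⟩ a 0 (Subtype.ext ?_)
      rw [e, h1]
      simp
  · obtain ⟨i, a, b, e⟩ := hN2 ⟨w, hw⟩ (fun a e => hwN a (congrArg Subtype.val e))
    exact ⟨i.1, mem_filter.2 ⟨mem_univ _, i.2⟩, a, b, congrArg Subtype.val e⟩

end Pool.BPA
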