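import Mathlib
import Pool.Agent.H61.BPA.Stmt

/-!
# Rows SPAN and FAM of the board `bpa`

The points of a cap with tangent hyperplanes span; the representatives of a cap of points are a cap.
-/

set_option autoImplicit false

namespace Pool.BPA

/-- SPAN. -/
theorem t_span : SpanStmt := by
  intro F _ ι W _ _ v T hv hT ⟨i, j, hij⟩
  rw [eq_top_iff]
  have key : ∀ w, T i w ≠ 0 → w ∈ Submodule.span F (Set.range v) := by
    intro w hw
    obtain ⟨l, hl, a, b, h⟩ := hT.hit i w hw
    have hb : b ≠ 0 := by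
      rintro rfl
      rw [zero_smul, add_zero] at h
      have h1 := (hv.two l i hl 1 (-a) (by rw [h]; module)).1
      exact one_ne_zero h1
    have h2 : w = b⁻¹ • v l + (-(b⁻¹ * a)) • v i := by
      rw [h, smul_add, smul_smul, smul_smul, inv_mul_cancel₀ hb]
      module
    rw [h2]
    exact Submodule.add_mem _ (Submodule.smul_mem _ _ (Submodule.subset_span ⟨l, rfl⟩))
      (Submodule.smul_mem _ _ (Submodule.subset_span ⟨i, rfl⟩))
  intro w _
  by_cases hw : T i w = 0
  · have h1 := key (w + v j) (by rw [map_add, hw, zero_add]; exact hT.off i j hij)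
    have h2 := Submodule.sub_mem _ h1 (Submodule.subset_span ⟨j, rfl⟩ :
      v j ∈ Submodule.span F (Set.range v))
    rwa [add_sub_cancel_right] at h2
  · exact key w hw

/-- FAM. -/
theorem t_fam : FamStmt := by
  intro F _ S hS ⟨p, hp, p', hp', p'', hp'', h1, h2, h3⟩
  have three : ∀ i j k : S, i ≠ j → i ≠ k → j ≠ k → ∀ a b c : F,
      a • i.1.rep + b • j.1.rep + c • k.1.rep = 0 → a = 0 ∧ b = 0 ∧ c = 0 := by
    intro i j k hij hik hjk a b c h
    have hL := hS ![i.1, j.1, k.1] (by
      intro x y hxy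
      have e1 : i.1 ≠ j.1 := fun e => hij (Subtype.ext e)
      have e2 : i.1 ≠ k.1 := fun e => hik (Subtype.ext e)
      have e3 : j.1 ≠ k.1 := fun e => hjk (Subtype.ext e)
      fin_cases x <;> fin_cases y <;> simp_all [eq_comm]) (by
      intro x
      fin_cases x
      · exact i.2
      · exact j.2
      · exact k.2)
    rw [Fintype.linearIndependent_iff] at hL
    have h4 := hL ![a, b, c] (by simpa [Fin.sum_univ_three] using h)
    exact ⟨h4 0, h4 1, h4 2⟩
  have third : ∀ i j : S, i ≠ j → ∃ k : S, k ≠ i ∧ k ≠ j := by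
    intro i j hij
    by_contra hcon
    push Not at hcon
    have a1 : ∀ k : S, k = i ∨ k = j := fun k => by
      by_cases hk : k = i
      · exact Or.inl hk
      · exact Or.inr (hcon k hk)
    have n1 : (⟨p, hp⟩ : S) ≠ ⟨p', hp'⟩ := fun e => h1 (congrArg Subtype.val e)
    have n2 : (⟨p, hp⟩ : S) ≠ ⟨p'', hp''⟩ := fun e => h2 (congrArg Subtype.val e)
    have n3 : (⟨p', hp'⟩ : S) ≠ ⟨p'', hp''⟩ := fun e => h3 (congrArg Subtype.val e)
    rcases a1 ⟨p, hp⟩ with e1 | e1 <;> rcases a1 ⟨p', hp'⟩ with e2 | e2 <;>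
      rcases a1 ⟨p'', hp''⟩ with e3 | e3
    · exact n1 (e1.trans e2.symm)
    · exact n1 (e1.trans e2.symm)
    · exact n2 (e1.trans e3.symm)
    · exact n3 (e2.trans e3.symm)
    · exact n3 (e2.trans e3.symm)
    · exact n2 (e1.trans e3.symm)
    · exact n1 (e1.trans e2.symm)
    · exact n1 (e1.trans e2.symm)
  refine ⟨fun i => i.1.rep_nonzero, fun i j hij a b h => ?_, three⟩
  obtain ⟨k, hk1, hk2⟩ := third i j hij
  have h4 := three i j k hij hk1.symm hk2.symm a b 0 (by rw [zero_smul, add_zero]; exact h)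
  exact ⟨h4.1, h4.2.1⟩

end Pool.BPA
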