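import Mathlib
import Pool.Agent.H78.BPA.Span
import Pool.Agent.H78.BPA.Nuc4

/-!
# Rows POL and POLE of the board `bpa`: the form of a cap with `q ^ 2 + 1` points
-/

set_option autoImplicit false

namespace Pool.BPA

open Finset

theorem two_or (F : Type) [Field F] : (2 : F) ≠ 0 ∨ CharP F 2 := by
  by_cases h : (2 : F) = 0
  · exact Or.inr (CharTwo.of_one_ne_zero_of_two_eq_zero one_ne_zero h)
  · exact Or.inl h

theorem four_le (F : Type) [Field F] [Fintype F] [CharP F 2] (h : Fintype.card F ≠ 2) :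
    4 ≤ Fintype.card F := by
  obtain ⟨n, hn, hc⟩ := FiniteField.card F 2
  rw [hc] at h ⊢
  have h1 : (n : ℕ) ≠ 1 := fun e => h (by rw [e, pow_one])
  have h2 : 2 ≤ (n : ℕ) := by
    have := n.pos
    omega
  calc 4 = 2 ^ 2 := by norm_num
    _ ≤ 2 ^ (n : ℕ) := Nat.pow_le_pow_right (by norm_num) h2

/-- POL. -/
theorem t_pol (hTPE : TpeStmt) (hTPO : TpoStmt) (hTANG : TangStmt) (hLEMT : LemTStmt)
    (hGLUE : GlueStmt) : PolStmt := by
  classical
  intro F _ _ ι _ v hq hv hι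
  have hc : ∀ i, ∃ c : Fin 4 → F, c ⬝ᵥ v i = 0 ∧ ∀ j, j ≠ i → c ⬝ᵥ v j ≠ 0 := by
    rcases two_or F with h2 | h2
    · exact hTPO F ι v h2 hv hι
    · exact hTPE F ι v (four_le F hq) hv hι
  choose c hc1 hc2 using hc
  have hF : 1 < Fintype.card F := Fintype.one_lt_card
  have hT : Tan v (fun i => dotL (c i)) := by
    refine ⟨hc1, fun i j hij => hc2 i j (Ne.symm hij), fun i w hw => ?_⟩
    refine hTANG F ι (Fin 4 → F) v hv ?_ i (dotL (c i)) (hc1 i) (hc2 i) w hw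
    rw [hι, Nat.add_sub_cancel, Fintype.card_pi, Finset.prod_const, Finset.card_univ,
      Fintype.card_fin]
    ring
  have h2 : ∃ i j : ι, i ≠ j := Fintype.one_lt_card_iff.1 (by
    rw [hι]
    have : 0 < Fintype.card F ^ 2 := by positivity
    omega)
  have hspan := t_span F ι (Fin 4 → F) v _ hv hT h2
  obtain ⟨B, hB, hBi⟩ := hGLUE F ι (Fin 4 → F) v _ hv hT hspan (hLEMT F ι (Fin 4 → F) v _ hv hT)
  refine ⟨hspan, B, hB, fun i => ?_, fun i j hij => ?_, fun i w hw => ?_⟩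
  · obtain ⟨a, ha, e⟩ := hBi i
    rw [e, LinearMap.smul_apply, hT.self, smul_zero]
  · obtain ⟨a, ha, e⟩ := hBi i
    rw [e, LinearMap.smul_apply, smul_eq_mul]
    exact mul_ne_zero ha (hT.off i j hij)
  · obtain ⟨a, ha, e⟩ := hBi i
    rw [e, LinearMap.smul_apply, smul_eq_mul] at hw
    exact hT.hit i w (right_ne_zero_of_mul hw)

/-- POLE. -/
theorem t_pole (hPOL : PolStmt) (hEVN : EvnStmt) : PoleStmt := by
  classical
  intro F _ _ _ S hq hS hcap
  have : Fintype S := Fintype.ofFinite _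
  have hcard : Fintype.card S = Fintype.card F ^ 2 + 1 := by
    rw [← hS, ← Nat.card_coe_set_eq, Nat.card_eq_fintype_card]
  have h3 : ∃ p ∈ S, ∃ p' ∈ S, ∃ p'' ∈ S, p ≠ p' ∧ p ≠ p'' ∧ p' ≠ p'' := by
    have h4 : 2 < S.ncard := by
      rw [hS]
      nlinarith
    obtain ⟨a, ha, b, hb, c, hc, h⟩ := (Set.two_lt_ncard (Set.toFinite S)).1 h4
    exact ⟨a, ha, b, hb, c, hc, h⟩
  have hv := t_fam F S hcap h3
  obtain ⟨hspan, B, hB, hB0, hB1, -⟩ := hPOL F S _ (by omega) hv hcard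
  obtain ⟨hE1, hE2⟩ := hEVN F S _ hv hcard hspan B hB hB0 hB1
  exact ⟨B, hE1, hE2, fun p hp p' hp' hne => hB1 ⟨p, hp⟩ ⟨p', hp'⟩
    (fun e => hne (congrArg Subtype.val e))⟩

end Pool.BPA
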